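import Mathlib
import Pool.Agent.Y394.GN.Alg

/-!
# Project HC, task 4: a prime ideal as a function field, with given transcendence basis
-/

set_option autoImplicit false

namespace Pool.Agent.N426.HC

open Polynomial Pool.Agent.Y902.GN

section

variable {O : Type} [CommRing O] [IsDomain O] {d n : ℕ}
  {R₀ : Type} [CommRing R₀] [IsDomain R₀] [Algebra O R₀]

/-- the coordinates are algebraic over the independent ones -/
theorem alg_of_data (x : Fin n → R₀) (ι : Fin d → Fin n)
    (hι : AlgebraicIndependent O (fun b => x (ι b))) (A : MvPolynomial (Fin n) O)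
    (H : MvPolynomial (Option (Fin d)) O) (B₀ : MvPolynomial (Fin d) O)
    (B : Fin n → MvPolynomial (Option (Fin d)) O)
    (h1 : MvPolynomial.aeval x (sb ι A H) = 0) (h2 : H ≠ 0) (h3 : B₀ ≠ 0)
    (h4 : ∀ i, MvPolynomial.aeval x (MvPolynomial.rename ι B₀ * MvPolynomial.X i -
      sb ι A (B i)) = 0) (i : Fin n) :
    IsAlgebraic (Algebra.adjoin O (Set.range fun b => x (ι b))) (x i) := by
  classical
  obtain ⟨S, hS⟩ : ∃ S, S = Algebra.adjoin O (Set.range fun b => x (ι b)) := ⟨_, rfl⟩
  rw [← hS]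
  have hxS : ∀ b, x (ι b) ∈ S := fun b => by
    rw [hS]
    exact Algebra.subset_adjoin ⟨b, rfl⟩
  obtain ⟨ψ, hψ⟩ : ∃ ψ : MvPolynomial (Fin d) O →ₐ[O] S,
      ψ = MvPolynomial.aeval (fun b => (⟨x (ι b), hxS b⟩ : S)) := ⟨_, rfl⟩
  have hψv : ∀ P, (ψ P : R₀) = MvPolynomial.aeval (fun b => x (ι b)) P := by
    intro P
    have e1 : S.val.comp ψ = MvPolynomial.aeval (fun b => x (ι b)) := by
      apply MvPolynomial.algHom_ext
      intro b
      rw [AlgHom.comp_apply, hψ, MvPolynomial.aeval_X, MvPolynomial.aeval_X]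
      rfl
    exact AlgHom.congr_fun e1 P
  have hψi : Function.Injective ψ := by
    rw [injective_iff_map_eq_zero]
    intro P hP
    have e1 : MvPolynomial.aeval (fun b => x (ι b)) P = 0 := by
      rw [← hψv, hP]
      rfl
    exact (injective_iff_map_eq_zero _).1 hι P e1
  have hren : ∀ P : MvPolynomial (Fin d) O, MvPolynomial.aeval x (MvPolynomial.rename ι P) =
      (ψ P : R₀) := by
    intro P
    rw [MvPolynomial.aeval_rename, hψv]
    rfl
  obtain ⟨θ, hθ⟩ : ∃ θ, θ = MvPolynomial.aeval x A := ⟨_, rfl⟩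
  have hE : ∀ P : MvPolynomial (Option (Fin d)) O, MvPolynomial.aeval x (sb ι A P) =
      aeval θ ((MvPolynomial.optionEquivLeft O (Fin d) P).map (ψ : _ →+* S)) := by
    intro P
    induction P using MvPolynomial.induction_on with
    | C c =>
      rw [Y394.GN.left_C, Polynomial.map_C, aeval_C]
      have e1 : sb ι A (MvPolynomial.C c) = MvPolynomial.C c := (sb ι A).commutes c
      have e2 := hren (MvPolynomial.C c)
      rw [MvPolynomial.rename_C] at e2
      rw [e1, e2]
      rfl
    | add P Q hP hQ => rw [map_add, map_add, map_add, Polynomial.map_add, map_add, hP, hQ]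
    | mul_X P o hP =>
      rw [map_mul, map_mul, map_mul, Polynomial.map_mul, map_mul, hP]
      congr 1
      rcases o with _ | b
      · rw [MvPolynomial.optionEquivLeft_X_none, Polynomial.map_X, aeval_X, hθ]
        congr 1
        simp [sb]
      · rw [MvPolynomial.optionEquivLeft_X_some, Polynomial.map_C, aeval_C]
        have e1 : sb ι A (MvPolynomial.X (some b)) = MvPolynomial.X (ι b) := by
          simp [sb]
        have e2 := hren (MvPolynomial.X b)
        rw [MvPolynomial.rename_X] at e2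
        rw [e1, e2]
        rfl
  have hθa : IsAlgebraic S θ := by
    refine ⟨(MvPolynomial.optionEquivLeft O (Fin d) H).map (ψ : _ →+* S), ?_, ?_⟩
    · intro h0
      apply h2
      have h5 : MvPolynomial.optionEquivLeft O (Fin d) H = 0 := by
        apply Polynomial.map_injective (ψ : _ →+* S) hψi
        rw [Polynomial.map_zero]
        exact h0
      exact (MvPolynomial.optionEquivLeft O (Fin d)).injective (h5.trans (map_zero _).symm)
    · rw [← hE, h1]
  have hall : ∀ P : MvPolynomial (Option (Fin d)) O,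
      IsAlgebraic S (MvPolynomial.aeval x (sb ι A P)) := by
    intro P
    rw [hE]
    have e1 : Algebra.adjoin S {θ} ≤ Subalgebra.algebraicClosure S R₀ := by
      apply Algebra.adjoin_le
      rintro _ rfl
      exact hθa
    exact e1 (Polynomial.aeval_mem_adjoin_singleton S θ)
  have e1 := h4 i
  rw [map_sub, map_mul, MvPolynomial.aeval_X, hren, sub_eq_zero] at e1
  have e2 : IsAlgebraic S ((ψ B₀ : R₀) * x i) := by
    rw [e1]
    exact hall _
  refine IsAlgebraic.of_mul (y := (ψ B₀ : R₀)) ?_ ?_ e2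
  · apply mem_nonZeroDivisors_of_ne_zero
    intro h0
    apply h3
    apply hψi
    rw [map_zero]
    exact Subtype.ext h0
  · exact isAlgebraic_algebraMap (ψ B₀)

omit [IsDomain O] in
/-- a root of a monic polynomial -/
theorem alg_of_root {S : Subalgebra O R₀} {κ : ℕ} (c : Fin κ → R₀) (hc : ∀ l, IsAlgebraic S (c l))
    (a : R₀) (ha : a ^ κ + ∑ l, c l * a ^ (l : ℕ) = 0) : IsAlgebraic S a := by
  classical
  obtain ⟨T, hT⟩ : ∃ T, T = Subalgebra.algebraicClosure S R₀ := ⟨_, rfl⟩
  have hcT : ∀ l, c l ∈ T := fun l => by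
    rw [hT]
    exact hc l
  have h1 : IsIntegral T a := by
    refine ⟨X ^ κ + ∑ l : Fin κ, C (⟨c l, hcT l⟩ : T) * X ^ (l : ℕ), ?_, ?_⟩
    · apply monic_X_pow_add
      exact degree_sum_fin_lt _
    · rw [eval₂_add, eval₂_pow, eval₂_X, eval₂_finsetSum]
      simp only [eval₂_mul, eval₂_C, eval₂_pow, eval₂_X]
      exact ha
  subst hT
  exact h1.isAlgebraic.restrictScalars S

end

open MvPolynomial in
/-- the function field of a prime ideal, with given transcendence basis -/
theorem algD {O : Type} [CommRing O] [IsDomain O] [CharZero O] {d n : ℕ}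
    (J : Ideal (MvPolynomial (Fin n) O)) (hJ : J.IsPrime) (ι : Fin d → Fin n)
    (hren : ∀ P : MvPolynomial (Fin d) O, rename ι P ∈ J → P = 0)
    (halg : ∀ i, IsAlgebraic (Algebra.adjoin O
      (Set.range fun b => Ideal.Quotient.mkₐ O J (MvPolynomial.X (ι b))))
      (Ideal.Quotient.mkₐ O J (MvPolynomial.X i))) :
    ∃ (A : MvPolynomial (Fin n) O)
    (H : MvPolynomial (Option (Fin d)) O) (B₀ : MvPolynomial (Fin d) O)
    (B : Fin n → MvPolynomial (Option (Fin d)) O),
    sb ι A H ∈ J ∧ sb ι A (pderiv none H) ∉ J ∧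
    (∀ P, sb ι A P ∈ J → ∃ (c : MvPolynomial (Fin d) O) (Q : MvPolynomial (Option (Fin d)) O),
      c ≠ 0 ∧ rename some c * P = H * Q) ∧
    B₀ ≠ 0 ∧ ∀ i, rename ι B₀ * MvPolynomial.X i - sb ι A (B i) ∈ J := by
  classical
  have hdom : IsDomain (MvPolynomial (Fin n) O ⧸ J) := Ideal.Quotient.isDomain J
  let mk : MvPolynomial (Fin n) O →ₐ[O] MvPolynomial (Fin n) O ⧸ J := Ideal.Quotient.mkₐ O J
  have hmk : Function.Surjective mk := Ideal.Quotient.mkₐ_surjective O J
  have hJ0 : ∀ P, P ∈ J ↔ mk P = 0 := fun P => Ideal.Quotient.eq_zero_iff_mem.symm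
  have h2 : mk.comp (MvPolynomial.rename ι) =
      MvPolynomial.aeval (fun b => mk (MvPolynomial.X (ι b))) := by
    apply MvPolynomial.algHom_ext
    intro b
    rw [AlgHom.comp_apply, MvPolynomial.rename_X, MvPolynomial.aeval_X]
  have hren' : ∀ P : MvPolynomial (Fin d) O, mk (MvPolynomial.rename ι P) = 0 → P = 0 :=
    fun P hP => hren P ((hJ0 _).2 hP)
  have hι : AlgebraicIndependent O (fun b => mk (MvPolynomial.X (ι b))) := by
    show Function.Injective (MvPolynomial.aeval (R := O) fun b => mk (MvPolynomial.X (ι b)))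
    rw [injective_iff_map_eq_zero]
    intro P hP
    apply hren'
    rw [← hP]
    exact AlgHom.congr_fun h2 P
  have halg' : ∀ z : MvPolynomial (Fin n) O ⧸ J, IsAlgebraic (Algebra.adjoin O
      (Set.range fun b => mk (MvPolynomial.X (ι b)))) z := by
    intro z
    obtain ⟨P, rfl⟩ := hmk z
    induction P using MvPolynomial.induction_on with
    | C c =>
      have e1 : mk (MvPolynomial.C c) = algebraMap (Algebra.adjoin O
          (Set.range fun b => mk (MvPolynomial.X (ι b)))) _ (algebraMap O _ c) := by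
        rw [← IsScalarTower.algebraMap_apply]
        exact mk.commutes c
      rw [e1]
      exact isAlgebraic_algebraMap _
    | add P Q hP hQ =>
      rw [map_add]
      exact hP.add hQ
    | mul_X P i hP =>
      rw [map_mul]
      exact hP.mul (halg i)
  obtain ⟨L, _, _, hL⟩ : ∃ (L : Type) (_ : Field L) (_ : Algebra (MvPolynomial (Fin n) O ⧸ J) L),
      IsFractionRing (MvPolynomial (Fin n) O ⧸ J) L :=
    ⟨FractionRing (MvPolynomial (Fin n) O ⧸ J), inferInstance, inferInstance, inferInstance⟩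
  obtain ⟨F, _, _, hF⟩ : ∃ (F : Type) (_ : Field F) (_ : Algebra (MvPolynomial (Fin d) O) F),
      IsFractionRing (MvPolynomial (Fin d) O) F :=
    ⟨FractionRing (MvPolynomial (Fin d) O), inferInstance, inferInstance, inferInstance⟩
  let y : MvPolynomial (Fin d) O →+* L :=
    (algebraMap _ L).comp (mk.toRingHom.comp
      (MvPolynomial.rename ι : _ →ₐ[O] MvPolynomial (Fin n) O).toRingHom)
  have hyinj : Function.Injective y := by
    rw [injective_iff_map_eq_zero]
    intro P hP
    apply hren'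
    exact (map_eq_zero_iff _ (IsFractionRing.injective (MvPolynomial (Fin n) O ⧸ J) L)).1 hP
  let algSL : Algebra (MvPolynomial (Fin d) O) L := y.toAlgebra
  let algFL : Algebra F L := (IsFractionRing.lift (A := MvPolynomial (Fin d) O) (K := F) hyinj).toAlgebra
  have hst : IsScalarTower (MvPolynomial (Fin d) O) F L := by
    refine IsScalarTower.of_algebraMap_eq fun P => ?_
    change y P = IsFractionRing.lift hyinj (algebraMap _ F P)
    rw [IsFractionRing.lift_algebraMap]
  obtain ⟨A, H, B₀, B, g1, g2, g3, g4, g5⟩ := Y394.GN.assemble (F := F) (L := L) mk hmk ι hι halg'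
    (fun P => rfl)
  exact ⟨A, H, B₀, B, (hJ0 _).2 g1, fun h => g2 ((hJ0 _).1 h), fun P hP => g3 P ((hJ0 _).1 hP),
    g4, fun i => (hJ0 _).2 (g5 i)⟩

open MvPolynomial in
/-- the function field of a prime ideal, with one further variable -/
theorem algK {O : Type} [CommRing O] [IsDomain O] [CharZero O] {d N κ : ℕ}
    (J : Ideal (MvPolynomial (Fin N) O)) (J' : Ideal (MvPolynomial (Fin (N + 1)) O))
    (hpr : J'.IsPrime) (hJJ : ∀ Q : MvPolynomial (Fin N) O, rename Fin.succ Q ∈ J' ↔ Q ∈ J)
    (ι : Fin d → Fin N) (A : MvPolynomial (Fin N) O)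
    (H : MvPolynomial (Option (Fin d)) O) (B₀ : MvPolynomial (Fin d) O)
    (B : Fin N → MvPolynomial (Option (Fin d)) O)
    (hind : ∀ P : MvPolynomial (Fin d) O, rename ι P ∈ J → P = 0)
    (hH0 : sb ι A H ∈ J) (hHT : sb ι A (pderiv none H) ∉ J) (hB00 : B₀ ≠ 0)
    (hBX : ∀ i, rename ι B₀ * MvPolynomial.X i - sb ι A (B i) ∈ J) (o : Fin N) (μ : Fin κ → Fin N)
    (hroot : (MvPolynomial.X 0 : MvPolynomial (Fin (N + 1)) O) ^ κ +
      ∑ l : Fin κ, (MvPolynomial.X (μ l).succ - MvPolynomial.X o.succ) *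
        MvPolynomial.X 0 ^ (l : ℕ) ∈ J') :
    ∃ (A' : MvPolynomial (Fin (N + 1)) O)
    (H : MvPolynomial (Option (Fin d)) O) (B₀ : MvPolynomial (Fin d) O)
    (B : Fin (N + 1) → MvPolynomial (Option (Fin d)) O),
    sb (fun b => (ι b).succ) A' H ∈ J' ∧
    sb (fun b => (ι b).succ) A' (pderiv none H) ∉ J' ∧
    (∀ P, sb (fun b => (ι b).succ) A' P ∈ J' → ∃ (c : MvPolynomial (Fin d) O)
      (Q : MvPolynomial (Option (Fin d)) O), c ≠ 0 ∧ rename some c * P = H * Q) ∧
    B₀ ≠ 0 ∧ ∀ i, rename (fun b => (ι b).succ) B₀ * MvPolynomial.X i -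
      sb (fun b => (ι b).succ) A' (B i) ∈ J' := by
  classical
  have hdom : IsDomain (MvPolynomial (Fin (N + 1)) O ⧸ J') := Ideal.Quotient.isDomain _
  obtain ⟨mk, hmk⟩ : ∃ mk : MvPolynomial (Fin (N + 1)) O →ₐ[O]
      MvPolynomial (Fin (N + 1)) O ⧸ J', mk = Ideal.Quotient.mkₐ O J' := ⟨_, rfl⟩
  have hmk0 : ∀ P, P ∈ J' ↔ mk P = 0 := fun P => by
    rw [hmk]
    exact Ideal.Quotient.eq_zero_iff_mem.symm
  have hren : ∀ P : MvPolynomial (Fin d) O, rename (fun b => (ι b).succ) P ∈ J' → P = 0 := by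
    intro P hP
    apply hind
    rw [← hJJ, rename_rename]
    exact hP
  refine algD J' hpr (fun b => (ι b).succ) hren ?_
  rw [← hmk]
  obtain ⟨x, hx⟩ : ∃ x : Fin N → MvPolynomial (Fin (N + 1)) O ⧸ J',
      x = fun j => mk (MvPolynomial.X j.succ) := ⟨_, rfl⟩
  have hxa : ∀ Q : MvPolynomial (Fin N) O, MvPolynomial.aeval x Q = mk (rename Fin.succ Q) := by
    intro Q
    have e1 : MvPolynomial.aeval x = mk.comp (rename Fin.succ) := by
      apply MvPolynomial.algHom_ext
      intro b
      rw [AlgHom.comp_apply, rename_X, MvPolynomial.aeval_X, hx]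
    rw [e1]
    rfl
  have hx0 : ∀ Q : MvPolynomial (Fin N) O, MvPolynomial.aeval x Q = 0 ↔ Q ∈ J := by
    intro Q
    rw [hxa, ← hmk0, hJJ]
  have hxι : AlgebraicIndependent O (fun b => x (ι b)) := by
    show Function.Injective (MvPolynomial.aeval (R := O) fun b => x (ι b))
    rw [injective_iff_map_eq_zero]
    intro P hP
    apply hind
    rw [← hx0, aeval_rename]
    exact hP
  have hHne : H ≠ 0 := by
    intro h
    apply hHT
    rw [h, map_zero, map_zero]
    exact Ideal.zero_mem _
  have h1 : ∀ i, IsAlgebraic (Algebra.adjoin O (Set.range fun b => x (ι b))) (x i) :=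
    alg_of_data x ι hxι A H B₀ B ((hx0 _).2 hH0) hHne hB00 fun i => (hx0 _).2 (hBX i)
  have h2 : IsAlgebraic (Algebra.adjoin O (Set.range fun b => x (ι b)))
      (mk (MvPolynomial.X 0)) := by
    refine alg_of_root (κ := κ) (fun l => x (μ l) - x o) (fun l => (h1 _).sub (h1 _)) _ ?_
    have e1 := (hmk0 _).1 hroot
    rw [map_add, map_pow, map_sum] at e1
    simp only [map_mul, map_sub, map_pow] at e1
    rw [hx]
    exact e1
  have hset : (fun b => mk (MvPolynomial.X (ι b).succ)) = fun b => x (ι b) := by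
    rw [hx]
  intro i
  rw [hset]
  refine Fin.cases ?_ (fun j => ?_) i
  · exact h2
  · have := h1 j
    rw [hx] at this ⊢
    exact this

end Pool.Agent.N426.HC
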