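import Mathlib
import Pool.Agent.N426.HC.Al
import Pool.Agent.N459.HB.Gd
import Pool.Agent.N741.HB.Stm3

/-!
# Project HC, task 4: function field data for algebraic points
-/

set_option autoImplicit false

namespace Pool.Agent.N426.HC

open Filter MvPolynomial Pool.Agent.Y902.GN Pool.Agent.N459.HB
open Pool.Agent.N741.HB (InP PB GD S_gd)
open Pool.Agent.N741.HC

/-- the value at the point `(α, t)` -/
noncomputable def evP {N : ℕ} (α : ℂ) (t : Fin N → ℤ) : MvPolynomial (Fin (N + 1)) ℤ →+* ℂ :=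
  eval₂Hom (Int.castRingHom ℂ) (Fin.cons α (fun j => (t j : ℂ)))

section ev

variable {N : ℕ} (α : ℂ) (t : Fin N → ℤ)

theorem evP_C (c : ℤ) : evP α t (C c) = (c : ℂ) := by
  unfold evP
  rw [coe_eval₂Hom, eval₂_C]
  rfl

theorem evP_zero : evP α t (X 0) = α := by
  unfold evP
  rw [coe_eval₂Hom, eval₂_X]
  rfl

theorem evP_succ (j : Fin N) : evP α t (X j.succ) = (t j : ℂ) := by
  unfold evP
  rw [coe_eval₂Hom, eval₂_X]
  rfl

theorem evP_rename (q : MvPolynomial (Fin N) ℤ) :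
    evP α t (rename Fin.succ q) = ((eval t q : ℤ) : ℂ) := by
  induction q using MvPolynomial.induction_on with
  | C c => rw [rename_C, evP_C, eval_C]
  | add p q hp hq => rw [map_add, map_add, map_add, hp, hq, Int.cast_add]
  | mul_X p j hp => rw [map_mul, map_mul, map_mul, hp, rename_X, evP_succ, eval_X, Int.cast_mul]

theorem evC_C {d : ℕ} (θ : ℂ) (s : Fin d → ℤ) (c : ℤ) : evC θ s (C c) = (c : ℂ) := by
  unfold evC
  rw [coe_eval₂Hom, eval₂_C]
  rfl

theorem evC_none {d : ℕ} (θ : ℂ) (s : Fin d → ℤ) : evC θ s (X none) = θ := by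
  unfold evC
  rw [coe_eval₂Hom, eval₂_X]
  rfl

theorem evC_some {d : ℕ} (θ : ℂ) (s : Fin d → ℤ) (b : Fin d) :
    evC θ s (X (some b)) = (s b : ℂ) := by
  unfold evC
  rw [coe_eval₂Hom, eval₂_X]
  rfl

theorem evP_sb {d : ℕ} (ι : Fin d → Fin N) (a : MvPolynomial (Fin (N + 1)) ℤ)
    (q : MvPolynomial (Option (Fin d)) ℤ) :
    evP α t (aeval (fun o => Option.elim o a (fun b => X (ι b).succ)) q) =
      evC (evP α t a) (fun b => t (ι b)) q := by
  induction q using MvPolynomial.induction_on with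
  | C c =>
    rw [aeval_C, evC_C]
    exact evP_C α t c
  | add p q hp hq => rw [map_add, map_add, map_add, hp, hq]
  | mul_X p o hp =>
    rw [map_mul, map_mul, map_mul, hp, aeval_X]
    cases o with
    | none => rw [evC_none]; rfl
    | some b => rw [evC_some, Option.elim_some, evP_succ]

end ev

section vl

variable {κ : ℕ} (a : ℂ)

theorem vl_add (v w : Fin κ → ℤ) : vl a (fun l => v l + w l) = vl a v + vl a w := by
  unfold vl
  rw [← Finset.sum_add_distrib]
  refine Finset.sum_congr rfl fun l _ => ?_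
  push_cast
  ring

theorem vl_sub (v w : Fin κ → ℤ) : vl a (fun l => v l - w l) = vl a v - vl a w := by
  unfold vl
  rw [← Finset.sum_sub_distrib]
  refine Finset.sum_congr rfl fun l _ => ?_
  push_cast
  ring

theorem vl_smul (c : ℤ) (v : Fin κ → ℤ) : vl a (fun l => c * v l) = c * vl a v := by
  unfold vl
  rw [Finset.mul_sum]
  refine Finset.sum_congr rfl fun l _ => ?_
  push_cast
  ring

theorem vl_zero : vl a (fun _ : Fin κ => (0 : ℤ)) = 0 := by
  unfold vl
  simp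

end vl

section

variable {Y : ℕ → ℕ} {N : ℕ} {Om : ℕ → Finset (Fin N → ℤ)} {κ : ℕ}

/-- the ideal of the algebraic points -/
noncomputable def JA (Y : ℕ → ℕ) {N : ℕ} {Om : ℕ → Finset (Fin N → ℤ)} {κ : ℕ} (A : AD Om κ) :
    Ideal (MvPolynomial (Fin (N + 1)) (OO Y)) where
  carrier := {P | ∀ᶠ ν in (Uf : Filter ℕ), ∀ t ∈ Om ν, evP (A.α ν t) t (sq P ν) = 0}
  add_mem' := by
    intro P Q hP hQ
    simp only [Set.mem_ofPred_eq] at *
    filter_upwards [hP, hQ, (Re.sq (P + Q)).eq ((Re.sq P).add (Re.sq Q))] with ν a b c t ht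
    rw [c, map_add, a t ht, b t ht, add_zero]
  zero_mem' := by
    simp only [Set.mem_ofPred_eq]
    filter_upwards [(Re.sq (0 : MvPolynomial (Fin (N + 1)) (OO Y))).eq Re.zero] with ν c t _
    rw [c, map_zero]
  smul_mem' := by
    intro P Q hQ
    simp only [Set.mem_ofPred_eq, smul_eq_mul] at *
    filter_upwards [hQ, (Re.sq (P * Q)).eq ((Re.sq P).mul (Re.sq Q))] with ν b c t ht
    rw [c, map_mul, b t ht, mul_zero]

theorem mem_JA (A : AD Om κ) {P : MvPolynomial (Fin (N + 1)) (OO Y)}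
    {p : ℕ → MvPolynomial (Fin (N + 1)) ℤ} (hp : Re P p) :
    P ∈ JA Y A ↔ ∀ᶠ ν in (Uf : Filter ℕ), ∀ t ∈ Om ν, evP (A.α ν t) t (p ν) = 0 := by
  have h : ∀ᶠ ν in (Uf : Filter ℕ), sq P ν = p ν := (Re.sq P).eq hp
  constructor
  · intro h1
    have h1' : ∀ᶠ ν in (Uf : Filter ℕ), ∀ t ∈ Om ν, evP (A.α ν t) t (sq P ν) = 0 := h1
    filter_upwards [h1', h] with ν a b t ht
    rw [← b]; exact a t ht
  · intro h1
    show ∀ᶠ ν in (Uf : Filter ℕ), ∀ t ∈ Om ν, evP (A.α ν t) t (sq P ν) = 0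
    filter_upwards [h1, h] with ν a b t ht
    rw [b]; exact a t ht

/-- reduction modulo the equation of `α` -/
def Rd (A : AD Om κ) (P : MvPolynomial (Fin (N + 1)) (OO Y))
    (a : Fin κ → MvPolynomial (Fin N) (OO Y)) : Prop :=
  ∀ᶠ ν in (Uf : Filter ℕ), ∀ t ∈ Om ν,
    evP (A.α ν t) t (sq P ν) = vl (A.α ν t) (fun l => eval t (sq (a l) ν))

theorem Rd.iff (A : AD Om κ) {P : MvPolynomial (Fin (N + 1)) (OO Y)}
    {a : Fin κ → MvPolynomial (Fin N) (OO Y)} {p : ℕ → MvPolynomial (Fin (N + 1)) ℤ}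
    {q : Fin κ → ℕ → MvPolynomial (Fin N) ℤ} (hp : Re P p) (hq : ∀ l, Re (a l) (q l)) :
    Rd A P a ↔ ∀ᶠ ν in (Uf : Filter ℕ), ∀ t ∈ Om ν,
      evP (A.α ν t) t (p ν) = vl (A.α ν t) (fun l => eval t (q l ν)) := by
  have h1 : ∀ᶠ ν in (Uf : Filter ℕ), sq P ν = p ν := (Re.sq P).eq hp
  have h2 : ∀ᶠ ν in (Uf : Filter ℕ), ∀ l, sq (a l) ν = q l ν :=
    Filter.eventually_all.2 fun l => (Re.sq (a l)).eq (hq l)
  unfold Rd
  constructor
  · intro h
    filter_upwards [h, h1, h2] with ν e1 e2 e3 t ht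
    have := e1 t ht
    simp only [e2, e3] at this
    exact this
  · intro h
    filter_upwards [h, h1, h2] with ν e1 e2 e3 t ht
    simp only [e2, e3]
    exact e1 t ht

theorem Rd.ex (A : AD Om κ) (P : MvPolynomial (Fin (N + 1)) (OO Y)) :
    ∃ a : Fin κ → MvPolynomial (Fin N) (OO Y), Rd A P a := by
  classical
  rcases κ with _ | k
  · exact absurd A.pos (by omega)
  induction P using MvPolynomial.induction_on with
  | C c =>
    obtain ⟨f, hf⟩ := rep_exists c
    refine ⟨Fin.cons (C c) (fun _ => 0), (Rd.iff A (Re.C hf)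
      (q := fun l ν => (Fin.cons (C (f ν)) (fun _ => 0) : Fin (k + 1) → MvPolynomial (Fin N) ℤ) l)
      ?_).2 ?_⟩
    · intro l
      refine Fin.cases ?_ (fun l => ?_) l
      · exact Re.C hf
      · exact Re.zero
    · refine Filter.Eventually.of_forall fun ν t _ => ?_
      rw [evP_C, vl, Fin.sum_univ_succ]
      simp
  | add P Q hP hQ =>
    obtain ⟨a, ha⟩ := hP
    obtain ⟨b, hb⟩ := hQ
    refine ⟨fun l => a l + b l, (Rd.iff A ((Re.sq P).add (Re.sq Q))
      (q := fun l ν => sq (a l) ν + sq (b l) ν) fun l => (Re.sq _).add (Re.sq _)).2 ?_⟩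
    filter_upwards [ha, hb] with ν e1 e2 t ht
    simp only [map_add, vl_add]
    rw [e1 t ht, e2 t ht]
  | mul_X P j hP =>
    obtain ⟨a, ha⟩ := hP
    refine Fin.cases ?_ (fun j => ?_) j
    · refine ⟨fun l => (Fin.cons 0 (fun l' : Fin k => a l'.castSucc) :
          Fin (k + 1) → MvPolynomial (Fin N) (OO Y)) l - a (Fin.last k) * (X (A.μ l) - X A.o),
        (Rd.iff A ((Re.sq P).mul (Re.X 0))
        (q := fun l ν => (Fin.cons 0 (fun l' : Fin k => sq (a l'.castSucc) ν) :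
          Fin (k + 1) → MvPolynomial (Fin N) ℤ) l - sq (a (Fin.last k)) ν *
            (X (A.μ l) - X A.o)) ?_).2 ?_⟩
      · intro l
        refine Re.sub ?_ ((Re.sq _).mul ((Re.X _).sub (Re.X _)))
        refine Fin.cases ?_ (fun l => ?_) l
        · exact Re.zero
        · exact Re.sq _
      · filter_upwards [ha, A.root] with ν e1 e2 t ht
        rw [map_mul, evP_zero, e1 t ht]
        have e3 := e2 t ht
        simp only [map_sub, map_mul, eval_X]
        rw [vl_sub, vl_smul]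
        have e4 : vl (A.α ν t) (fun l => t (A.μ l) - t A.o) = vl (A.α ν t) (cv A.o A.μ t) := rfl
        rw [e4, eq_neg_of_add_eq_zero_right e3, vl, vl, Fin.sum_univ_castSucc, Fin.sum_univ_succ]
        simp only [Fin.cons_zero, Fin.cons_succ, map_zero, Int.cast_zero, zero_mul, zero_add,
          Fin.val_castSucc, Fin.val_last, Fin.val_succ]
        rw [add_mul, Finset.sum_mul]
        have e5 : ∀ l : Fin k, ((eval t (sq (a l.castSucc) ν) : ℤ) : ℂ) * A.α ν t ^ (l : ℕ) *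
            A.α ν t = ((eval t (sq (a l.castSucc) ν) : ℤ) : ℂ) * A.α ν t ^ ((l : ℕ) + 1) :=
          fun l => by rw [pow_succ]; ring
        rw [Finset.sum_congr rfl fun l _ => e5 l, pow_succ]
        ring
    · refine ⟨fun l => X j * a l, (Rd.iff A ((Re.sq P).mul (Re.X j.succ))
        (q := fun l ν => X j * sq (a l) ν) fun l => (Re.X j).mul (Re.sq _)).2 ?_⟩
      filter_upwards [ha] with ν e1 t ht
      simp only [map_mul, eval_X]
      rw [vl_smul, evP_succ, e1 t ht]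
      ring

theorem JA_of_big (hG : Gen Y Om) (A : AD Om κ) {P : MvPolynomial (Fin (N + 1)) (OO Y)}
    {p : ℕ → MvPolynomial (Fin (N + 1)) ℤ} (hp : Re P p) {Om' : ℕ → Finset (Fin N → ℤ)}
    (hOm' : ∀ᶠ ν in (Uf : Filter ℕ), Om' ν ⊆ Om ν) (hb : Big Y Om')
    (h0 : ∀ᶠ ν in (Uf : Filter ℕ), ∀ t ∈ Om' ν, evP (A.α ν t) t (p ν) = 0) : P ∈ JA Y A := by
  obtain ⟨a, ha⟩ := Rd.ex A P
  have ha' := (Rd.iff A hp (fun l => Re.sq (a l))).1 ha
  have h1 : ∀ l, a l ∈ JI Y Om := by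
    intro l
    apply hG.2 Om' hOm' hb
    rw [mem_JI (Re.sq _)]
    filter_upwards [ha', h0, hOm', A.lin] with ν e1 e2 e3 e4 t ht
    have e5 := e1 t (e3 ht)
    rw [e2 t ht] at e5
    exact congr_fun (e4 t (e3 ht) _ e5.symm) l
  have h2 : ∀ᶠ ν in (Uf : Filter ℕ), ∀ l, ∀ t ∈ Om ν, eval t (sq (a l) ν) = 0 :=
    Filter.eventually_all.2 fun l => (mem_JI (Re.sq _)).1 (h1 l)
  rw [mem_JA A hp]
  filter_upwards [ha', h2] with ν e1 e2 t ht
  rw [e1 t ht]
  have e3 : (fun l => eval t (sq (a l) ν)) = fun _ => (0 : ℤ) := by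
    funext l
    exact e2 l t ht
  rw [e3, vl_zero]

theorem JA_rename (A : AD Om κ) (Q : MvPolynomial (Fin N) (OO Y)) :
    rename Fin.succ Q ∈ JA Y A ↔ Q ∈ JI Y Om := by
  rw [mem_JA A ((Re.sq Q).rename Fin.succ), mem_JI (Re.sq Q)]
  simp only [evP_rename, Int.cast_eq_zero]

theorem JA_prime (hY : ∀ m : ℕ, ∀ᶠ ν in (Uf : Filter ℕ), m ≤ Y ν) (hG : Gen Y Om)
    (A : AD Om κ) : (JA Y A).IsPrime := by
  classical
  rw [Ideal.isPrime_iff]
  refine ⟨?_, ?_⟩
  · intro htop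
    have h1 : rename Fin.succ (1 : MvPolynomial (Fin N) (OO Y)) ∈ JA Y A := by
      rw [htop]; trivial
    rw [JA_rename] at h1
    exact (hG.isPrime hY).ne_top ((Ideal.eq_top_iff_one _).2 h1)
  · intro P Q hPQ
    have h1 := (mem_JA A ((Re.sq P).mul (Re.sq Q))).1 hPQ
    rcases hG.1.or hY (B := fun ν => (Om ν).filter fun t => evP (A.α ν t) t (sq P ν) = 0)
      (C := fun ν => (Om ν).filter fun t => evP (A.α ν t) t (sq Q ν) = 0) (by
        filter_upwards [h1] with ν a t ht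
        have := a t ht
        rw [map_mul] at this
        rw [Finset.mem_union, Finset.mem_filter, Finset.mem_filter]
        rcases mul_eq_zero.1 this with h2 | h2
        · exact Or.inl ⟨ht, h2⟩
        · exact Or.inr ⟨ht, h2⟩) with h2 | h2
    · exact Or.inl (JA_of_big hG A (Re.sq P) (Filter.Eventually.of_forall fun ν =>
        Finset.filter_subset _ _) h2 (Filter.Eventually.of_forall fun ν t ht =>
          (Finset.mem_filter.1 ht).2))
    · exact Or.inr (JA_of_big hG A (Re.sq Q) (Filter.Eventually.of_forall fun ν =>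
        Finset.filter_subset _ _) h2 (Filter.Eventually.of_forall fun ν t ht =>
          (Finset.mem_filter.1 ht).2))

/-- the equation of `α` -/
theorem root_mem (A : AD Om κ) : (X 0 : MvPolynomial (Fin (N + 1)) (OO Y)) ^ κ +
    ∑ l : Fin κ, (X (A.μ l).succ - X A.o.succ) * X 0 ^ (l : ℕ) ∈ JA Y A := by
  rw [mem_JA A ((Re.pow' (Re.X 0) κ).add (Re.sum Finset.univ (p := fun l _ =>
    (X (A.μ l).succ - X A.o.succ) * X 0 ^ (l : ℕ)) fun l _ =>
      ((Re.X _).sub (Re.X _)).mul (Re.pow' (Re.X 0) _)))]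
  filter_upwards [A.root] with ν e1 t ht
  have e2 := e1 t ht
  rw [map_add, map_pow, map_sum, evP_zero]
  simp only [map_mul, map_sub, evP_succ, map_pow, evP_zero]
  rw [← e2]
  congr 1
  unfold vl cv
  refine Finset.sum_congr rfl fun l _ => ?_
  push_cast
  rfl

/-- the function field data over `OO` -/
theorem algJ (hY : ∀ m : ℕ, ∀ᶠ ν in (Uf : Filter ℕ), m ≤ Y ν) (hG : Gen Y Om)
    (A : AD Om κ) (F : FF Y Om) :
    ∃ (A' : MvPolynomial (Fin (N + 1)) (OO Y))
    (H : MvPolynomial (Option (Fin F.d)) (OO Y)) (B₀ : MvPolynomial (Fin F.d) (OO Y))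
    (B : Fin (N + 1) → MvPolynomial (Option (Fin F.d)) (OO Y)),
    sb (fun b => (F.ι b).succ) A' H ∈ JA Y A ∧
    sb (fun b => (F.ι b).succ) A' (pderiv none H) ∉ JA Y A ∧
    (∀ P, sb (fun b => (F.ι b).succ) A' P ∈ JA Y A → ∃ (c : MvPolynomial (Fin F.d) (OO Y))
      (Q : MvPolynomial (Option (Fin F.d)) (OO Y)), c ≠ 0 ∧ rename some c * P = H * Q) ∧
    B₀ ≠ 0 ∧ ∀ i, rename (fun b => (F.ι b).succ) B₀ * X i -
      sb (fun b => (F.ι b).succ) A' (B i) ∈ JA Y A :=
  algK (JI Y Om) (JA Y A) (JA_prime hY hG A) (JA_rename A) F.ι F.A F.H F.B₀ F.B F.ind F.H0 F.HT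
    F.B00 F.BX A.o A.μ (root_mem A)

theorem gdaF (hY : ∀ m : ℕ, ∀ᶠ ν in (Uf : Filter ℕ), m ≤ Y ν) (hG : Gen Y Om)
    (hb : Bdd Y Om) (A : AD Om κ) (F : FF Y Om) : Nonempty (GDA Y Om A F.d F.ι) := by
  classical
  obtain ⟨A', H, B₀, B, g1, g2, g3, g4, g5⟩ := algJ hY hG A F
  obtain ⟨a, ha⟩ := Rd.ex A A'
  have hsb : ∀ {P : MvPolynomial (Option (Fin F.d)) (OO Y)}
      {p : ℕ → MvPolynomial (Option (Fin F.d)) ℤ}, Re P p →
      Re (sb (fun b => (F.ι b).succ) A' P)
        (fun ν => aeval (fun o => Option.elim o (sq A' ν) (fun b => X (F.ι b).succ)) (p ν)) := by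
    intro P p hp
    unfold sb
    refine Re.aeval (fun o => Option.elim o A' (fun b => X (F.ι b).succ))
      (fun o ν => Option.elim o (sq A' ν) (fun b => X (F.ι b).succ)) ?_ hp
    intro o
    cases o with
    | none => exact Re.sq _
    | some b => exact Re.X _
  -- the value of `Θ`
  obtain ⟨θ, hθ⟩ : ∃ θ : ℕ → (Fin N → ℤ) → ℂ,
      θ = fun ν t => vl (A.α ν t) (fun l => eval t (sq (a l) ν)) := ⟨_, rfl⟩
  have hθe : ∀ᶠ ν in (Uf : Filter ℕ), ∀ t ∈ Om ν, evP (A.α ν t) t (sq A' ν) = θ ν t := by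
    rw [hθ]
    exact ha
  have hmem : ∀ {P : MvPolynomial (Option (Fin F.d)) (OO Y)}
      {p : ℕ → MvPolynomial (Option (Fin F.d)) ℤ}, Re P p →
      (sb (fun b => (F.ι b).succ) A' P ∈ JA Y A ↔ ∀ᶠ ν in (Uf : Filter ℕ), ∀ t ∈ Om ν,
        evC (θ ν t) (fun b => t (F.ι b)) (p ν) = 0) := by
    intro P p hp
    rw [mem_JA A (hsb hp)]
    simp only [evP_sb]
    constructor
    · intro h
      filter_upwards [h, hθe] with ν e1 e2 t ht
      rw [← e2 t ht]
      exact e1 t ht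
    · intro h
      filter_upwards [h, hθe] with ν e1 e2 t ht
      rw [e2 t ht]
      exact e1 t ht
  have hpd : ∀ᶠ ν in (Uf : Filter ℕ), pderiv none (sq H ν) ≠ 0 := by
    rw [ev_not]
    intro h
    apply g2
    rw [hmem ((Re.sq H).pderiv none)]
    filter_upwards [h] with ν e1 t _
    rw [e1, map_zero]
  refine ⟨{
    θ := θ
    θv := fun ν t l => eval t (sq (a l) ν)
    h := sq H
    b0 := sq B₀
    b := fun j => sq (B (j.elim 0 Fin.succ))
    hPB := pb_of_re (Re.sq _)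
    b0PB := pb_of_re (Re.sq _)
    bPB := fun j => pb_of_re (Re.sq _)
    θbd := ?_
    θeq := Filter.Eventually.of_forall fun ν t _ => by rw [hθ]
    ev_h := (hmem (Re.sq H)).1 g1
    ev_b := ?_
    hne := ?_
    hone := ?_
    b0ne := ind_ne F g4 (Re.sq _)
    div := ?_ }⟩
  · have h1 : ∀ l, ∃ C : ℕ, ∀ᶠ ν in (Uf : Filter ℕ), ∀ s : Fin N → ℤ,
        (∀ i, |s i| ≤ ((Y ν : ℤ) + 2) ^ 1) → |eval s (sq (a l) ν)| ≤ ((Y ν : ℤ) + 2) ^ C :=
      fun l => (Re.sq (a l)).bd 1
    choose C hC using h1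
    refine ⟨∑ l, C l, ?_⟩
    filter_upwards [Filter.eventually_all.2 hC, hb] with ν e1 e2 t ht l
    refine (e1 l t fun j => ?_).trans (pow_le_pow_right₀ (by omega)
      (Finset.single_le_sum (fun _ _ => Nat.zero_le _) (Finset.mem_univ l)))
    have := (e2 t ht j).2
    rw [pow_one]
    omega
  · have h1 : ∀ j : Option (Fin N), ∀ᶠ ν in (Uf : Filter ℕ), ∀ t ∈ Om ν,
        ((eval (fun b => t (F.ι b)) (sq B₀ ν) : ℤ) : ℂ) *
          j.elim (A.α ν t) (fun j => (t j : ℂ)) =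
        evC (θ ν t) (fun b => t (F.ι b)) (sq (B (j.elim 0 Fin.succ)) ν) := by
      intro j
      have h2 := (mem_JA A ((((Re.sq B₀).rename (fun b => (F.ι b).succ)).mul
        (Re.X (j.elim 0 Fin.succ))).sub (hsb (Re.sq (B (j.elim 0 Fin.succ)))))).1 (g5 _)
      filter_upwards [h2, hθe] with ν e1 e2 t ht
      have e3 := e1 t ht
      rw [map_sub, map_mul, evP_sb, e2 t ht, sub_eq_zero] at e3
      rw [← e3]
      congr 1
      · have e4 : rename (fun b => (F.ι b).succ) (sq B₀ ν) =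
            rename Fin.succ (rename F.ι (sq B₀ ν)) := by
          rw [rename_rename]
          rfl
        rw [e4, evP_rename, eval_rename]
        rfl
      · cases j with
        | none => exact (evP_zero _ _).symm
        | some j => exact (evP_succ _ _ _).symm
    filter_upwards [Filter.eventually_all.2 h1] with ν e1 t ht j
    exact e1 j t ht
  · filter_upwards [hpd] with ν e1 e2
    rw [e2, map_zero] at e1
    exact e1 rfl
  · filter_upwards [hpd] with ν e1 e2
    obtain ⟨c, hc, hd⟩ := e2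
    exact e1 (pd_zero hc hd)
  · intro p hp Om' hOm' hbig h0
    obtain ⟨P, hP⟩ := re_of_pb hp
    have h1 : sb (fun b => (F.ι b).succ) A' P ∈ JA Y A := by
      refine JA_of_big hG A (hsb hP) hOm' hbig ?_
      filter_upwards [h0, hθe, hOm'] with ν e1 e2 e3 t ht
      rw [evP_sb, e2 t (e3 ht)]
      exact e1 t ht
    obtain ⟨c, Q, hc, hQ⟩ := g3 P h1
    have h2 := ((Re.sq c).rename some).mul hP
    rw [hQ] at h2
    filter_upwards [ind_ne F hc (Re.sq c), h2.eq ((Re.sq H).mul (Re.sq Q))] with ν e1 e2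
    exact ⟨sq c ν, e1, ⟨sq Q ν, e2⟩⟩

end

/-- **HC/4** -/
theorem gda : S_gda := by
  classical
  intro Y N Om hY hG hb κ A
  obtain ⟨F⟩ := FF.ex Y394.GN.t hY hG
  obtain ⟨c, hc⟩ := F.sp_bd hb
  refine ⟨{
    d := F.d
    ι := F.ι
    θ := fun ν t => eval t (sq F.A ν)
    h := sq F.H
    b0 := sq F.B₀
    b := fun j => sq (F.B j)
    hPB := pb_of_re (Re.sq _)
    b0PB := pb_of_re (Re.sq _)
    bPB := fun j => pb_of_re (Re.sq _)
    θbd := ⟨c, hc.mono fun ν h t ht => h t ht none⟩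
    ev_h := (F.mem (Re.sq F.H)).1 F.H0
    ev_b := ?_
    hne := ?_
    hone := ?_
    b0ne := ind_ne F F.B00 (Re.sq _)
    small := ?_
    sep := ?_
    div := ?_ }, gdaF hY hG hb A F⟩
  · have h1 := (Re.sq F.B0).eq ((Re.sq F.B₀).rename some)
    filter_upwards [h1, Filter.eventually_all.2 F.rel] with ν a b t ht j
    have h2 := b j t ht
    rw [a, ev_sp] at h2
    exact h2
  · filter_upwards [pd_ne F hG] with ν a h0
    rw [h0, map_zero] at a
    exact a rfl
  · filter_upwards [pd_ne F hG] with ν a h0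
    obtain ⟨c, hc, hd⟩ := h0
    exact a (pd_zero hc hd)
  · intro c hc hc0 hbig
    obtain ⟨P, hP⟩ := re_of_pb hc
    have h1 : rename F.ι P ∈ JI Y Om := by
      by_contra h2
      refine hG.notBig (hP.rename F.ι) h2 (Filter.Eventually.of_forall fun ν =>
        Finset.filter_subset _ _) (Filter.Eventually.of_forall fun ν t ht => ?_) hbig
      rw [eval_rename]
      exact (Finset.mem_filter.1 ht).2
    have h2 := F.ind P h1
    rw [h2] at hP
    obtain ⟨ν, a, b⟩ := (hc0.and (hP.eq Re.zero)).exists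
    exact a b
  · exact F.notBig hG ((Re.sq F.H).pderiv none) F.HT (Filter.Eventually.of_forall fun ν =>
      Finset.filter_subset _ _) (Filter.Eventually.of_forall fun ν t ht =>
      (Finset.mem_filter.1 ht).2)
  · intro p hp hbig
    obtain ⟨P, hP⟩ := re_of_pb hp
    have h1 : sb F.ι F.A P ∈ JI Y Om := by
      by_contra h2
      exact F.notBig hG hP h2 (Filter.Eventually.of_forall fun ν =>
        Finset.filter_subset _ _) (Filter.Eventually.of_forall fun ν t ht =>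
        (Finset.mem_filter.1 ht).2) hbig
    obtain ⟨c, Q, hc, hQ⟩ := F.dvd P h1
    have h2 := ((Re.sq c).rename some).mul hP
    rw [hQ] at h2
    filter_upwards [ind_ne F hc (Re.sq c), h2.eq ((Re.sq F.H).mul (Re.sq Q))] with ν a b
    exact ⟨sq c ν, a, ⟨sq Q ν, b⟩⟩

end Pool.Agent.N426.HC
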